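import Pool.Agent.MP_2489e7_pr.H60.Moments

/-! Generic matrices, the frozen-phase upper bound, parabolic and dominated matrices. -/

open Matrix Filter Topology

namespace Pool.Agent.MP_2489e7_pr.H60

variable {d : ℕ}

theorem dense_minor {i : ℕ} (f g : Fin i ↪ Fin d) :
    Dense {A : Matrix (Fin d) (Fin d) ℝ | (A.submatrix f g).det ≠ 0} := by
  classical
  intro A
  set G : Matrix (Fin d) (Fin d) ℝ :=
    Matrix.of fun a b => if ∃ j, f j = a ∧ g j = b then 1 else 0 with hG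
  have hG1 : G.submatrix f g = 1 := by
    ext a b
    simp only [submatrix_apply, hG, of_apply, EmbeddingLike.apply_eq_iff_eq, one_apply]
    by_cases hab : a = b
    · subst hab; simp
    · rw [if_neg hab, if_neg]
      rintro ⟨j, rfl, rfl⟩; exact hab rfl
  set P := (-(A.submatrix f g)).charpoly with hP
  have hP0 : P ≠ 0 := (Matrix.charpoly_monic _).ne_zero
  have hd : Dense {s : ℝ | P.IsRoot s}ᶜ :=
    (Polynomial.finite_setOfPred_isRoot hP0).countable.dense_compl ℝ
  have hc : Continuous fun s : ℝ => A + s • G := by fun_prop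
  have h0 : A = A + (0 : ℝ) • G := by simp
  rw [h0]
  refine map_mem_closure (f := fun s : ℝ => A + s • G) hc (hd 0) ?_
  intro s hs
  simp only [Set.mem_compl_iff, Set.mem_ofPred_eq, Polynomial.IsRoot, hP,
    Matrix.eval_charpoly] at hs ⊢
  convert hs using 2
  have : (A + s • G).submatrix f g = A.submatrix f g + s • G.submatrix f g := rfl
  rw [this, hG1]
  ext a b
  simp [Matrix.one_apply, Matrix.diagonal_apply, add_comm]

theorem exists_generic (O : Set (Matrix (Fin d) (Fin d) ℝ)) (hO : O ∈ 𝓝 1) :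
    ∃ R : GL (Fin d) ℝ, (R : Matrix (Fin d) (Fin d) ℝ) ∈ O ∧ ∀ i, i ≤ d →
      ∀ f g : Fin i ↪ Fin d, ((R : Matrix (Fin d) (Fin d) ℝ).submatrix f g).det ≠ 0 := by
  have : BaireSpace (Matrix (Fin d) (Fin d) ℝ) :=
    inferInstanceAs (BaireSpace (Fin d → Fin d → ℝ))
  have hd : Dense (⋂ x : (Σ i : Fin (d + 1), (Fin i ↪ Fin d) × (Fin i ↪ Fin d)),
      {A : Matrix (Fin d) (Fin d) ℝ | (A.submatrix x.2.1 x.2.2).det ≠ 0}) := by
    refine dense_iInter_of_isOpen (fun x => ?_) fun x => dense_minor _ _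
    apply isOpen_ne_fun _ continuous_const
    exact (continuous_id.matrix_submatrix _ _).matrix_det
  obtain ⟨A, hA1, hA2⟩ := hd.inter_nhds_nonempty hO
  have hA : ∀ i, i ≤ d → ∀ f g : Fin i ↪ Fin d, (A.submatrix f g).det ≠ 0 := by
    intro i hi f g
    exact Set.mem_iInter.1 hA1 ⟨⟨i, by omega⟩, f, g⟩
  have hdet : A.det ≠ 0 :=
    hA d le_rfl (Function.Embedding.refl _) (Function.Embedding.refl _)
  exact ⟨GeneralLinearGroup.mkOfDetNeZero A hdet, hA2, hA⟩

theorem abs_entry_le_opNorm (x : GL (Fin d) ℝ) (a b : Fin d) :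
    |(x : Matrix (Fin d) (Fin d) ℝ) a b| ≤ opNorm x := by
  have h := (Matrix.toEuclideanCLM (n := Fin d) (𝕜 := ℝ)
    (x : Matrix (Fin d) (Fin d) ℝ)).le_opNorm (WithLp.toLp 2 (Pi.single b 1))
  have h1 : ‖(WithLp.toLp 2 (Pi.single b (1 : ℝ)) : EuclideanSpace ℝ (Fin d))‖ = 1 := by
    simp
  rw [h1, mul_one, Matrix.toEuclideanCLM_toLp] at h
  rw [opNorm_eq]
  refine le_trans ?_ h
  have := PiLp.norm_apply_le
    (WithLp.toLp 2 ((x : Matrix (Fin d) (Fin d) ℝ) *ᵥ Pi.single b 1) : EuclideanSpace ℝ (Fin d)) a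
  simpa using this

theorem frozen_upper {ι St : Type} [Fintype ι] (o : Fin d) (p : ι → ℝ) (g : ι → GL (Fin d) ℝ)
    (hp : ∀ l, 0 < p l) (A : ι → Matrix (Fin d) (Fin d) ℝ) (a : ι → ℝ) (ha : ∀ l, 0 < a l)
    (hg : ∀ l, (g l : Matrix (Fin d) (Fin d) ℝ) = a l • A l)
    (In : St → (Fin d → ℝ) → Prop) (Ψ : St → (Fin d → ℝ) → ℝ) (next : ι → St)
    (h1 : ∀ st v, In st v → v o ≠ 0 ∧ 1 / (v o) ^ 2 ≤ Ψ st v)
    (h2 : ∀ st v, In st v → ∀ l, In (next l) (A l *ᵥ v) ∧ (v o) ^ 2 ≤ ((A l *ᵥ v) o) ^ 2)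
    (h3 : ∀ st v, In st v → ∑ l, Ψ (next l) (A l *ᵥ v) ≤ Ψ st v)
    (t : ℝ) (ht : t ≤ -2) (α : ℝ) (hα : ∀ l, p l * a l ^ t ≤ α) (hα0 : 0 < α) (n : ℕ) :
    ∀ (y : GL (Fin d) ℝ) (s : ℝ) (st : St) (v : Fin d → ℝ), 0 < s → In st v →
      (y : Matrix (Fin d) (Fin d) ℝ) *ᵥ Pi.single o 1 = s • v →
      ex p g n (fun x => opNorm (x * y) ^ t) ≤ α ^ n * (s ^ t * (|v o| ^ (t + 2) * Ψ st v)) := by
  induction n with
  | zero =>
    intro y s st v hs hv hy
    obtain ⟨hv0, hΨ⟩ := h1 st v hv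
    have habs : 0 < |v o| := abs_pos.2 hv0
    have h4 : s * |v o| ≤ opNorm y := by
      have := abs_entry_le_opNorm y o o
      have h5 := congrFun hy o
      simp only [mulVec_single_one, col_apply, Pi.smul_apply, smul_eq_mul] at h5
      rwa [h5, abs_mul, abs_of_pos hs] at this
    simp only [ex, one_mul, pow_zero]
    calc opNorm y ^ t ≤ (s * |v o|) ^ t :=
          Real.rpow_le_rpow_of_nonpos (mul_pos hs habs) h4 (by linarith)
      _ = s ^ t * (|v o| ^ (t + 2) * (1 / (v o) ^ 2)) := by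
          rw [Real.mul_rpow hs.le habs.le, Real.rpow_add habs, Real.rpow_two, sq_abs]
          field_simp
      _ ≤ _ := by gcongr
  | succ n ih =>
    intro y s st v hs hv hy
    obtain ⟨hv0, -⟩ := h1 st v hv
    have habs : 0 < |v o| := abs_pos.2 hv0
    have key : ∀ l, p l * ex p g n (fun x => opNorm (x * g l * y) ^ t) ≤
        α ^ (n + 1) * (s ^ t * (|v o| ^ (t + 2) * Ψ (next l) (A l *ᵥ v))) := by
      intro l
      obtain ⟨hin, hsq⟩ := h2 st v hv l
      have h5 := ih (g l * y) (a l * s) (next l) (A l *ᵥ v) (mul_pos (ha l) hs) hin (by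
        rw [Units.val_mul, ← mulVec_mulVec, hy, hg, mulVec_smul, smul_mulVec, smul_smul, mul_comm])
      simp only [← mul_assoc _ (g l) y] at h5
      have hΨ : 0 ≤ Ψ (next l) (A l *ᵥ v) := le_trans (by positivity) (h1 _ _ hin).2
      have h6 : |(A l *ᵥ v) o| ^ (t + 2) ≤ |v o| ^ (t + 2) :=
        Real.rpow_le_rpow_of_nonpos habs (sq_le_sq.1 hsq) (by linarith)
      have hs' : 0 < s ^ t := Real.rpow_pos_of_pos hs t
      have ha' : 0 < a l ^ t := Real.rpow_pos_of_pos (ha l) t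
      have hp' := hp l
      calc _ ≤ p l * (α ^ n * ((a l * s) ^ t *
            (|(A l *ᵥ v) o| ^ (t + 2) * Ψ (next l) (A l *ᵥ v)))) :=
            mul_le_mul_of_nonneg_left h5 (hp l).le
        _ = (p l * a l ^ t) * (α ^ n * (s ^ t *
            (|(A l *ᵥ v) o| ^ (t + 2) * Ψ (next l) (A l *ᵥ v)))) := by
            rw [Real.mul_rpow (ha l).le hs.le]; ring
        _ ≤ α * (α ^ n * (s ^ t * (|v o| ^ (t + 2) * Ψ (next l) (A l *ᵥ v)))) := by
            gcongr; exact hα l
        _ = _ := by ring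
    calc _ ≤ ∑ l, α ^ (n + 1) * (s ^ t * (|v o| ^ (t + 2) * Ψ (next l) (A l *ᵥ v))) :=
          Finset.sum_le_sum fun l _ => key l
      _ = α ^ (n + 1) * (s ^ t * (|v o| ^ (t + 2) * ∑ l, Ψ (next l) (A l *ᵥ v))) := by
          simp only [Finset.mul_sum]
      _ ≤ _ := by
          have hs' : 0 < s ^ t := Real.rpow_pos_of_pos hs t
          gcongr; exact h3 st v hv

/-- Diagonal part of the parabolic letter. -/
noncomputable def dia (o e : Fin d) (δ : ℝ) : Matrix (Fin d) (Fin d) ℝ :=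
  diagonal fun k => if k = o ∨ k = e then 1 else δ

/-- Nilpotent part of the parabolic letter. -/
noncomputable def nil (o e : Fin d) (c M : ℝ) : Matrix (Fin d) (Fin d) ℝ :=
  vecMulVec (Pi.single o M + Pi.single e (c * M)) (Pi.single e 1 - Pi.single o c)

section par
variable {o e : Fin d} (hoe : o ≠ e) (c M δ : ℝ)
include hoe

theorem dia_mul_nil : dia o e δ * nil o e c M = nil o e c M := by
  rw [nil, mul_vecMulVec]; congr 1
  ext k
  by_cases h1 : k = o
  · subst h1; simp [dia, mulVec_diagonal]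
  · by_cases h2 : k = e
    · subst h2; simp [dia, mulVec_diagonal]
    · simp [dia, mulVec_diagonal, h1, h2]

theorem nil_mul_dia : nil o e c M * dia o e δ = nil o e c M := by
  rw [nil, vecMulVec_mul]; congr 1
  ext k
  by_cases h1 : k = o
  · subst h1; simp [dia, vecMul_diagonal]
  · by_cases h2 : k = e
    · subst h2; simp [dia, vecMul_diagonal]
    · simp [dia, vecMul_diagonal, h1, h2]

theorem nil_mul_nil : nil o e c M * nil o e c M = 0 := by
  rw [nil, vecMulVec_mul_vecMulVec]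
  have : (Pi.single e 1 - Pi.single o c : Fin d → ℝ) ⬝ᵥ (Pi.single o M + Pi.single e (c * M))
      = 0 := by
    simp [hoe, hoe.symm]
  rw [this]; simp

theorem par_pow (n : ℕ) :
    (dia o e δ + nil o e c M) ^ n = dia o e δ ^ n + (n : ℝ) • nil o e c M := by
  induction n with
  | zero => simp
  | succ n ih =>
    have h : ∀ m : ℕ, dia o e δ ^ m * nil o e c M = nil o e c M := by
      intro m
      induction m with
      | zero => simp
      | succ m ihm => rw [pow_succ, mul_assoc, dia_mul_nil hoe, ihm]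
    rw [pow_succ, ih, add_mul, mul_add, mul_add, h, smul_mul_assoc, smul_mul_assoc,
      nil_mul_dia hoe, nil_mul_nil hoe, pow_succ]
    push_cast
    rw [add_smul]; simp [add_assoc, add_comm]

theorem par_det : (dia o e δ + nil o e c M).det = δ ^ (d - 2) := by
  have h : dia o e δ + nil o e c M = dia o e δ * (1 + nil o e c M) := by
    rw [mul_add, mul_one, dia_mul_nil hoe]
  rw [h, det_mul, nil, vecMulVec_eq Unit, det_one_add_replicateCol_mul_replicateRow]
  have : (Pi.single e 1 - Pi.single o c : Fin d → ℝ) ⬝ᵥ (Pi.single o M + Pi.single e (c * M))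
      = 0 := by
    simp [hoe, hoe.symm]
  rw [this, dia, det_diagonal, Finset.prod_ite]
  simp only [Finset.prod_const_one, Finset.prod_const, one_mul, add_zero, mul_one]
  congr 1
  have h2 : (Finset.univ.filter fun k : Fin d => ¬ (k = o ∨ k = e)) = Finset.univ \ {o, e} := by
    ext k; simp
  rw [h2, Finset.card_sdiff_of_subset (Finset.subset_univ _), Finset.card_pair hoe]
  simp

theorem par_mulVec_o (v : Fin d → ℝ) :
    ((dia o e δ + nil o e c M) *ᵥ v) o = v o + M * (v e - c * v o) := by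
  simp [add_mulVec, dia, nil, mulVec_diagonal, vecMulVec_mulVec, hoe]

theorem par_mulVec_e (v : Fin d → ℝ) :
    ((dia o e δ + nil o e c M) *ᵥ v) e = v e + c * M * (v e - c * v o) := by
  simp [add_mulVec, dia, nil, mulVec_diagonal, vecMulVec_mulVec, hoe.symm]

omit hoe in
theorem par_mulVec_other (v : Fin d → ℝ) (k : Fin d) (h1 : k ≠ o) (h2 : k ≠ e) :
    ((dia o e δ + nil o e c M) *ᵥ v) k = δ * v k := by
  simp [add_mulVec, dia, nil, mulVec_diagonal, vecMulVec_mulVec, h1, h2]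

theorem opNorm_par_pow (x : GL (Fin d) ℝ) (a : ℝ) (ha : 0 < a) (hδ : |δ| ≤ 1)
    (hx : (x : Matrix (Fin d) (Fin d) ℝ) = a • (dia o e δ + nil o e c M)) :
    ∃ C : ℝ, 0 ≤ C ∧ ∀ n : ℕ, opNorm (x ^ n) ≤ a ^ n * (1 + n * C) := by
  set φ := Matrix.toEuclideanCLM (n := Fin d) (𝕜 := ℝ) with hφ
  refine ⟨‖φ (nil o e c M)‖, norm_nonneg _, fun n => ?_⟩
  have : Nontrivial (EuclideanSpace ℝ (Fin d)) := by
    have : Nonempty (Fin d) := ⟨o⟩
    infer_instance
  have h1 : ‖φ (dia o e δ)‖ ≤ 1 := by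
    have := Matrix.l2_opNorm_diagonal (n := Fin d) (𝕜 := ℝ)
      (fun k => if k = o ∨ k = e then (1 : ℝ) else δ)
    refine le_trans (le_of_eq this) ?_
    rw [pi_norm_le_iff_of_nonneg zero_le_one]
    intro k
    split_ifs
    · simp
    · exact hδ
  rw [opNorm_eq]
  rw [Units.val_pow_eq_pow_val, hx, smul_pow, par_pow hoe, map_smul, map_add, map_smul, map_pow,
    norm_smul, Real.norm_of_nonneg (pow_pos ha n).le]
  gcongr
  refine (norm_add_le _ _).trans (add_le_add ?_ ?_)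
  · exact (norm_pow_le _ _).trans (pow_le_one₀ (norm_nonneg _) h1)
  · rw [norm_smul]; simp [hφ]

end par

theorem dominated (o : Fin d) (A : Matrix (Fin d) (Fin d) ℝ) (Λ : ℝ)
    (h6 : 6 < A o o) (hA : ∀ a b, ¬ (a = o ∧ b = o) → 2 * d * Λ * |A a b| < A o o)
    (v : Fin d → ℝ) (hv : ∀ k, |v k| ≤ Λ * |v o|) :
    3 * |v o| ≤ |(A *ᵥ v) o| ∧ ∀ k, |(A *ᵥ v) k| ≤ |(A *ᵥ v) o| := by
  have hd : (0 : ℝ) < d := by exact_mod_cast o.pos
  have hterm : ∀ a b, ¬ (a = o ∧ b = o) → |A a b * v b| ≤ A o o / (2 * d) * |v o| := by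
    intro a b hab
    rw [abs_mul]
    have h1 := hA a b hab
    have h2 : Λ * |A a b| ≤ A o o / (2 * d) := by
      rw [le_div_iff₀ (by positivity)]; nlinarith
    calc |A a b| * |v b| ≤ |A a b| * (Λ * |v o|) := by gcongr; exact hv b
      _ = (Λ * |A a b|) * |v o| := by ring
      _ ≤ _ := by gcongr
  have hsum : ∀ a (s : Finset (Fin d)), (∀ b ∈ s, ¬ (a = o ∧ b = o)) →
      |∑ b ∈ s, A a b * v b| ≤ A o o / 2 * |v o| := by
    intro a s hs
    calc _ ≤ ∑ b ∈ s, |A a b * v b| := Finset.abs_sum_le_sum_abs _ _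
      _ ≤ ∑ b ∈ s, A o o / (2 * d) * |v o| := Finset.sum_le_sum fun b hb => hterm a b (hs b hb)
      _ = s.card * (A o o / (2 * d) * |v o|) := by simp
      _ ≤ d * (A o o / (2 * d) * |v o|) := by
          have : (s.card : ℝ) ≤ d := by exact_mod_cast (by simpa using s.card_le_univ)
          have : 0 ≤ A o o / (2 * d) * |v o| := by positivity
          gcongr
      _ = _ := by field_simp
  have ho : A o o / 2 * |v o| ≤ |(A *ᵥ v) o| := by
    have h1 : (A *ᵥ v) o = A o o * v o + ∑ b ∈ Finset.univ.erase o, A o b * v b := by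
      rw [mulVec, dotProduct, Finset.add_sum_erase _ (fun b => A o b * v b) (Finset.mem_univ o)]
    have h2 := hsum o (Finset.univ.erase o) fun b hb h => (Finset.mem_erase.1 hb).1 h.2
    have h3 := abs_add_le (A o o * v o + ∑ b ∈ Finset.univ.erase o, A o b * v b)
      (-∑ b ∈ Finset.univ.erase o, A o b * v b)
    rw [add_neg_cancel_right, abs_neg, abs_mul, abs_of_pos (by linarith : 0 < A o o)] at h3
    rw [h1]; linarith
  refine ⟨le_trans (by gcongr; linarith) ho, fun k => ?_⟩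
  by_cases hk : k = o
  · rw [hk]
  · exact (hsum k Finset.univ fun b _ h => hk h.1).trans ho

end Pool.Agent.MP_2489e7_pr.H60
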