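import Mathlib

/-! Definitions for the moment exponent of random matrix products. -/

open MeasureTheory

namespace Pool.Agent.MP_2489e7_pr.H60

/-- The operator norm of `g` for the Euclidean norm on `ℝ^d`. -/
noncomputable def opNorm {d : ℕ} (g : GL (Fin d) ℝ) : ℝ :=
  sInf {c : ℝ | 0 ≤ c ∧ ∀ v : Fin d → ℝ,
    √(∑ i, (g : Matrix (Fin d) (Fin d) ℝ).mulVec v i ^ 2) ≤ c * √(∑ i, v i ^ 2)}

/-- The `n`-th convolution power of `μ`. -/
noncomputable def convPow {G : Type} [Monoid G] [MeasurableSpace G] (μ : Measure G) (n : ℕ) :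
    Measure G :=
  (fun ν : Measure G => ν.mconv μ)^[n] (Measure.dirac 1)

/-- The closed semigroup generated by the support of `μ`. -/
def closedSemigroup {G : Type} [Monoid G] [TopologicalSpace G] [MeasurableSpace G]
    (μ : Measure G) : Set G :=
  closure (Subsemigroup.closure μ.support : Set G)

/-- No finite union of proper nonzero subspaces of `V` is mapped into itself by all `ρ g`,
`g ∈ S`. -/
def StronglyIrreducible {G V : Type} [AddCommGroup V] [Module ℝ V] (ρ : G → V →ₗ[ℝ] V)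
    (S : Set G) : Prop :=
  ¬ ∃ 𝒲 : Finset (Submodule ℝ V), 𝒲.Nonempty ∧ (∀ W ∈ 𝒲, W ≠ ⊥ ∧ W ≠ ⊤) ∧
      ∀ g ∈ S, ∀ W ∈ 𝒲, ∀ v ∈ W, ∃ W' ∈ 𝒲, ρ g v ∈ W'

/-- Some `ρ g`, `g ∈ S`, has a simple eigenvalue of strictly largest modulus (among the complex
roots of the characteristic polynomial, counted with multiplicity). -/
def Proximal {G V : Type} [AddCommGroup V] [Module ℝ V] [Module.Free ℝ V] [Module.Finite ℝ V]
    (ρ : G → V →ₗ[ℝ] V) (S : Set G) : Prop :=
  ∃ g ∈ S, ∃ z : ℂ, ((ρ g).charpoly.aroots ℂ).count z = 1 ∧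
    ∀ w ∈ (ρ g).charpoly.aroots ℂ, w ≠ z → ‖w‖ < ‖z‖

/-- The action induced by `ρ` on the `i`-th exterior power of `V` is strongly irreducible and
proximal. -/
def GoodOnWedge {G V : Type} [AddCommGroup V] [Module ℝ V] [Module.Free ℝ V] [Module.Finite ℝ V]
    (ρ : G → V →ₗ[ℝ] V) (S : Set G) (i : ℕ) : Prop :=
  StronglyIrreducible (fun g => exteriorPower.map i (ρ g)) S ∧
    Proximal (fun g => exteriorPower.map i (ρ g)) S

end Pool.Agent.MP_2489e7_pr.H60
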