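import Pool.Agent.MP_2489e7_pr.H60.Defs

/-! Strong irreducibility and proximality from two loxodromic elements in general position. -/

open Module Set Polynomial

namespace Pool.Agent.MP_2489e7_pr.H60

section abstract
variable {V : Type} [AddCommGroup V] [Module ℝ V]

theorem le_of_subset_union (𝒲 : Finset (Submodule ℝ V)) (A : Submodule ℝ V)
    (h : ∀ v ∈ A, ∃ W ∈ 𝒲, v ∈ W) : ∃ W ∈ 𝒲, A ≤ W := by
  by_contra hcon
  push Not at hcon
  obtain ⟨x, hx⟩ := Submodule.exists_forall_notMem_of_forall_ne_top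
    (fun W : 𝒲 => (W : Submodule ℝ V).comap A.subtype) (by
      intro W hW
      apply hcon W W.2
      intro v hv
      have : (⟨v, hv⟩ : A) ∈ (W : Submodule ℝ V).comap A.subtype := by rw [hW]; trivial
      exact this)
  obtain ⟨W, hW, hxW⟩ := h x x.2
  exact hx ⟨W, hW⟩ hxW

theorem exists_pow_invariant [FiniteDimensional ℝ V] (T : V →ₗ[ℝ] V) (hT : Function.Injective T)
    (𝒲 : Finset (Submodule ℝ V)) (hinv : ∀ W ∈ 𝒲, ∀ v ∈ W, ∃ W' ∈ 𝒲, T v ∈ W')
    (W₀ : Submodule ℝ V) (h₀ : W₀ ∈ 𝒲) (hmax : ∀ W ∈ 𝒲, finrank ℝ W ≤ finrank ℝ W₀) :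
    ∃ m : ℕ, 0 < m ∧ ∀ v ∈ W₀, (T ^ m) v ∈ W₀ := by
  have hinj : ∀ n : ℕ, Function.Injective (T ^ n) := fun n => by
    rw [Module.End.coe_pow]; exact hT.iterate n
  have h1 : ∀ n : ℕ, ∀ v ∈ W₀, ∃ W ∈ 𝒲, (T ^ n) v ∈ W := by
    intro n
    induction n with
    | zero => intro v hv; exact ⟨W₀, h₀, by simpa using hv⟩
    | succ n ih =>
      intro v hv
      obtain ⟨W, hW, hv'⟩ := ih v hv
      obtain ⟨W', hW', h'⟩ := hinv W hW _ hv'
      exact ⟨W', hW', by rw [pow_succ']; exact h'⟩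
  have h2 : ∀ n : ℕ, W₀.map (T ^ n) ∈ (𝒲 : Set (Submodule ℝ V)) := by
    intro n
    obtain ⟨W, hW, hle⟩ := le_of_subset_union 𝒲 (W₀.map (T ^ n)) (by
      rintro _ ⟨v, hv, rfl⟩; exact h1 n v hv)
    have : W₀.map (T ^ n) = W := by
      apply Submodule.eq_of_le_of_finrank_le hle
      rw [← (Submodule.equivMapOfInjective _ (hinj n) W₀).finrank_eq]
      exact hmax W hW
    rw [this]; exact hW
  obtain ⟨a, b, hab, heq⟩ := Set.Finite.exists_lt_map_eq_of_forall_mem h2 𝒲.finite_toSet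
  obtain ⟨m, rfl⟩ := Nat.exists_eq_add_of_lt hab
  refine ⟨m + 1, Nat.succ_pos _, fun v hv => ?_⟩
  have : (T ^ (a + m + 1)) v ∈ W₀.map (T ^ a) := by
    rw [heq]; exact ⟨v, hv, rfl⟩
  obtain ⟨w, hw, hwv⟩ := this
  rw [add_assoc, pow_add, Module.End.mul_apply] at hwv
  rw [← hinj a hwv]; exact hw

theorem basis_mem_of_invariant {κ : Type} [Fintype κ] (b : Basis κ ℝ V) (T : V →ₗ[ℝ] V)
    (ν : κ → ℝ) (hν : Function.Injective ν) (hT : ∀ s, T (b s) = ν s • b s)
    (W : Submodule ℝ V) (hW : ∀ v ∈ W, T v ∈ W) (s : κ) :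
    ∀ w ∈ W, b.repr w s ≠ 0 → b s ∈ W := by
  classical
  have hrepr : ∀ w r, b.repr (T w) r = ν r * b.repr w r := by
    intro w r
    conv_lhs => rw [← b.sum_repr w]
    simp only [map_sum, map_smul, hT, Finsupp.coe_finsetSum, Finsupp.coe_smul, Finset.sum_apply,
      Pi.smul_apply, Basis.repr_self, smul_eq_mul]
    rw [Finset.sum_eq_single r]
    · simp; ring
    · intro c _ hc; simp [Finsupp.single_eq_of_ne hc.symm]
    · simp
  suffices H : ∀ n : ℕ, ∀ w ∈ W, (b.repr w).support.card ≤ n → b.repr w s ≠ 0 → b s ∈ W from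
    fun w hw h => H _ w hw le_rfl h
  intro n
  induction n with
  | zero =>
    intro w _ hc hs
    have : s ∈ (b.repr w).support := Finsupp.mem_support_iff.2 hs
    have := Finset.card_pos.2 ⟨s, this⟩
    omega
  | succ n ih =>
    intro w hw hc hs
    by_cases hex : ∃ r, r ≠ s ∧ b.repr w r ≠ 0
    · obtain ⟨r, hrs, hr⟩ := hex
      have hw' : T w - ν r • w ∈ W := W.sub_mem (hW w hw) (W.smul_mem _ hw)
      have hc' : ∀ q, b.repr (T w - ν r • w) q = (ν q - ν r) * b.repr w q := by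
        intro q; simp [hrepr]; ring
      apply ih _ hw'
      · have : (b.repr (T w - ν r • w)).support ⊆ (b.repr w).support.erase r := by
          intro q hq
          rw [Finsupp.mem_support_iff, hc'] at hq
          rw [Finset.mem_erase, Finsupp.mem_support_iff]
          refine ⟨?_, right_ne_zero_of_mul hq⟩
          rintro rfl; simp at hq
        have h3 := Finset.card_le_card this
        rw [Finset.card_erase_of_mem (Finsupp.mem_support_iff.2 hr)] at h3
        omega
      · rw [hc']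
        exact mul_ne_zero (sub_ne_zero.2 fun h => hrs (hν h).symm) hs
    · push Not at hex
      have : w = b.repr w s • b s := by
        conv_lhs => rw [← b.sum_repr w]
        rw [Finset.sum_eq_single s]
        · intro c _ hc; rw [hex c hc, zero_smul]
        · simp
      have h2 : b s = (b.repr w s)⁻¹ • w := by
        conv_rhs => rw [this]
        simp [smul_smul, hs]
      rw [h2]; exact W.smul_mem _ hw

end abstract

variable {d : ℕ}

/-- The natural action of `g` on the `i`-th exterior power of `ℝ^d`. -/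
noncomputable def wedge (i : ℕ) (g : GL (Fin d) ℝ) :
    (⋀[ℝ]^i (Fin d → ℝ)) →ₗ[ℝ] (⋀[ℝ]^i (Fin d → ℝ)) :=
  exteriorPower.map i (Matrix.toLin' (g : Matrix (Fin d) (Fin d) ℝ))

theorem wedge_mul (i : ℕ) (x y : GL (Fin d) ℝ) : wedge i (x * y) = wedge i x * wedge i y := by
  unfold wedge
  rw [Units.val_mul, Matrix.toLin'_mul, exteriorPower.map_comp]; rfl

theorem wedge_one (i : ℕ) : wedge i (1 : GL (Fin d) ℝ) = 1 := by
  unfold wedge
  rw [Units.val_one, Matrix.toLin'_one, exteriorPower.map_id]; rfl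

theorem wedge_injective (i : ℕ) (x : GL (Fin d) ℝ) : Function.Injective (wedge i x) := by
  apply Function.LeftInverse.injective (g := wedge i x⁻¹)
  intro v
  rw [← Module.End.mul_apply, ← wedge_mul, inv_mul_cancel, wedge_one]; rfl

theorem wedge_basis (i : ℕ) (x : GL (Fin d) ℝ) (b : Basis (Fin d) ℝ (Fin d → ℝ))
    (lam : Fin d → ℝ) (h : ∀ k, (x : Matrix (Fin d) (Fin d) ℝ).mulVec (b k) = lam k • b k)
    (s : powersetCard (Fin d) i) :
    wedge i x (b.exteriorPower i s) = (∏ k ∈ s.val, lam k) • b.exteriorPower i s := by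
  rw [exteriorPower.basis_apply, wedge, exteriorPower.ιMulti_family,
    exteriorPower.map_apply_ιMulti]
  have : (Matrix.toLin' (x : Matrix (Fin d) (Fin d) ℝ)) ∘ (b ∘ powersetCard.ofFinEmbEquiv.symm s)
      = fun j => lam (powersetCard.ofFinEmbEquiv.symm s j) •
        (b ∘ powersetCard.ofFinEmbEquiv.symm s) j := by
    ext1 j; simp [h]
  rw [this, AlternatingMap.map_smul_univ]
  congr 1
  rw [powersetCard.ofFinEmbEquiv_symm_apply]
  conv_rhs => rw [← Finset.image_orderEmbOfFin_univ s.val s.prop]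
  rw [Finset.prod_image fun a _ c _ hac => (s.val.orderEmbOfFin s.prop).injective hac]

theorem prod_injective (i : ℕ) (lam : Fin d → ℝ) (hpos : ∀ k, 0 < lam k)
    (hinj : ∀ s t : Finset (Fin d), s.card = t.card → ∏ k ∈ s, lam k = ∏ k ∈ t, lam k → s = t)
    (m : ℕ) (hm : 0 < m) :
    Function.Injective fun s : powersetCard (Fin d) i => (∏ k ∈ s.val, lam k) ^ m := by
  intro s t hst
  apply Subtype.ext
  apply hinj _ _ (s.prop.trans t.prop.symm)
  exact (pow_left_inj₀ (Finset.prod_pos fun k _ => hpos k).le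
    (Finset.prod_pos fun k _ => hpos k).le hm.ne').1 hst

theorem stronglyIrreducible_of (i : ℕ) (S : Set (GL (Fin d) ℝ)) (lam : Fin d → ℝ)
    (hpos : ∀ k, 0 < lam k)
    (hinj : ∀ s t : Finset (Fin d), s.card = t.card → ∏ k ∈ s, lam k = ∏ k ∈ t, lam k → s = t)
    (D R : GL (Fin d) ℝ) (hD : (D : Matrix (Fin d) (Fin d) ℝ) = Matrix.diagonal lam)
    (hR : ∀ f g : Fin i ↪ Fin d, ((R : Matrix (Fin d) (Fin d) ℝ).submatrix f g).det ≠ 0)
    (h1 : D ∈ S) (h2 : R * D * R⁻¹ ∈ S) : StronglyIrreducible (wedge i) S := by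
  rintro ⟨𝒲, hne, hprop, hinv⟩
  obtain ⟨W₀, h₀, hmax⟩ := 𝒲.exists_max_image (fun W => finrank ℝ W) hne
  obtain ⟨m, hm, hWm⟩ := exists_pow_invariant _ (wedge_injective i D) 𝒲 (hinv D h1) W₀ h₀ hmax
  obtain ⟨m', hm', hWm'⟩ := exists_pow_invariant _ (wedge_injective i _) 𝒲 (hinv _ h2) W₀ h₀ hmax
  set b : Basis (Fin d) ℝ (Fin d → ℝ) := Pi.basisFun ℝ (Fin d) with hb
  set b' : Basis (Fin d) ℝ (Fin d → ℝ) := b.map (Matrix.toLinearEquiv' (R : Matrix _ _ ℝ)
    (Units.invertible R)) with hb'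
  have hb'k : ∀ k, b' k = (R : Matrix (Fin d) (Fin d) ℝ).mulVec (b k) := by
    intro k; rw [hb', Basis.map_apply]; rfl
  have hDb : ∀ k, (D : Matrix (Fin d) (Fin d) ℝ).mulVec (b k) = lam k • b k := by
    intro k; rw [hD]; ext j
    by_cases hjk : j = k
    · subst hjk; simp [hb]
    · simp [hb, hjk]
  have hDb' : ∀ k, ((R * D * R⁻¹ : GL (Fin d) ℝ) : Matrix (Fin d) (Fin d) ℝ).mulVec (b' k)
      = lam k • b' k := by
    intro k
    rw [hb'k, Matrix.mulVec_mulVec, ← Units.val_mul, inv_mul_cancel_right, Units.val_mul,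
      ← Matrix.mulVec_mulVec, hDb, Matrix.mulVec_smul]
  have hpow : ∀ (x : GL (Fin d) ℝ) (c : Basis (Fin d) ℝ (Fin d → ℝ)),
      (∀ k, (x : Matrix (Fin d) (Fin d) ℝ).mulVec (c k) = lam k • c k) → ∀ (n : ℕ) s,
      (wedge i x ^ n) (c.exteriorPower i s) = (∏ k ∈ s.val, lam k) ^ n • c.exteriorPower i s := by
    intro x c hc n s
    induction n with
    | zero => simp
    | succ n ih =>
      rw [pow_succ', Module.End.mul_apply, ih, map_smul, wedge_basis i x c lam hc, smul_smul,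
        pow_succ]
  obtain ⟨w, hw, hw0⟩ := Submodule.exists_mem_ne_zero_of_ne_bot (hprop W₀ h₀).1
  obtain ⟨t, ht⟩ : ∃ t, (b'.exteriorPower i).repr w t ≠ 0 := by
    by_contra hcon
    push Not at hcon
    apply hw0
    apply (b'.exteriorPower i).repr.injective
    ext t; simp [hcon t]
  have h3 := basis_mem_of_invariant (b'.exteriorPower i) _ _ (prod_injective i lam hpos hinj m' hm')
    (hpow _ b' hDb' m') W₀ hWm' t w hw ht
  apply (hprop W₀ h₀).2
  rw [eq_top_iff, ← (b.exteriorPower i).span_eq, Submodule.span_le]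
  rintro _ ⟨s, rfl⟩
  refine basis_mem_of_invariant (b.exteriorPower i) _ _ (prod_injective i lam hpos hinj m hm)
    (hpow _ b hDb m) W₀ hWm s _ h3 ?_
  rw [exteriorPower.basis_repr_apply, exteriorPower.basis_apply, exteriorPower.ιMulti_family,
    exteriorPower.ιMultiDual_apply_ιMulti, ← Matrix.det_transpose]
  convert hR (powersetCard.ofFinEmbEquiv.symm s).toEmbedding
    (powersetCard.ofFinEmbEquiv.symm t).toEmbedding using 2
  ext a c
  simp [hb'k, hb]

theorem proximal_of (i : ℕ) (hi : i ≤ d) (S : Set (GL (Fin d) ℝ)) (lam : Fin d → ℝ)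
    (hpos : ∀ k, 0 < lam k)
    (hinj : ∀ s t : Finset (Fin d), s.card = t.card → ∏ k ∈ s, lam k = ∏ k ∈ t, lam k → s = t)
    (D : GL (Fin d) ℝ) (hD : (D : Matrix (Fin d) (Fin d) ℝ) = Matrix.diagonal lam)
    (h1 : D ∈ S) : Proximal (wedge i) S := by
  classical
  set b : Basis (Fin d) ℝ (Fin d → ℝ) := Pi.basisFun ℝ (Fin d) with hb
  have hDb : ∀ k, (D : Matrix (Fin d) (Fin d) ℝ).mulVec (b k) = lam k • b k := by
    intro k; rw [hD]; ext j
    by_cases hjk : j = k
    · subst hjk; simp [hb]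
    · simp [hb, hjk]
  set ν : powersetCard (Fin d) i → ℝ := fun s => ∏ k ∈ s.val, lam k with hν
  have hνinj : Function.Injective ν := by
    simpa using prod_injective i lam hpos hinj 1 one_pos
  have hνpos : ∀ s, 0 < ν s := fun s => Finset.prod_pos fun k _ => hpos k
  have hch : (wedge i D).charpoly = ∏ s, (X - C (ν s)) := by
    rw [← LinearMap.charpoly_toMatrix _ (b.exteriorPower i)]
    have : LinearMap.toMatrix (b.exteriorPower i) (b.exteriorPower i) (wedge i D)
        = Matrix.diagonal ν := by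
      ext s t
      rw [LinearMap.toMatrix_apply, wedge_basis i D b lam hDb, map_smul, Basis.repr_self]
      by_cases hst : s = t
      · subst hst; simp [hν]
      · simp [hst, Finsupp.single_eq_of_ne hst]
    rw [this, Matrix.charpoly_diagonal]
  have hroots : (wedge i D).charpoly.aroots ℂ =
      (Finset.univ.val.map fun s => ((ν s : ℝ) : ℂ)) := by
    rw [hch, aroots_def, Polynomial.map_prod]
    simp only [Polynomial.map_sub, map_X, map_C]
    rw [← roots_multiset_prod_X_sub_C (Finset.univ.val.map fun s => ((ν s : ℝ) : ℂ)),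
      Multiset.map_map]
    rfl
  have hne : Nonempty (powersetCard (Fin d) i) := by
    obtain ⟨s, -, hs⟩ := Finset.exists_subset_card_eq (s := (Finset.univ : Finset (Fin d)))
      (n := i) (by simpa using hi)
    exact ⟨⟨s, hs⟩⟩
  obtain ⟨s₀, hs₀⟩ := Finite.exists_max ν
  refine ⟨D, h1, (ν s₀ : ℂ), ?_, ?_⟩
  · rw [hroots]
    apply Multiset.count_eq_one_of_mem
    · exact Finset.univ.nodup.map (Complex.ofReal_injective.comp hνinj)
    · exact Multiset.mem_map.2 ⟨s₀, Finset.mem_univ _, rfl⟩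
  · intro w hw hne
    rw [hroots] at hw
    obtain ⟨s, -, rfl⟩ := Multiset.mem_map.1 hw
    rw [Complex.norm_real, Complex.norm_real, Real.norm_of_nonneg (hνpos _).le,
      Real.norm_of_nonneg (hνpos _).le]
    exact lt_of_le_of_ne (hs₀ s) fun h => hne (by rw [h])

end Pool.Agent.MP_2489e7_pr.H60
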