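import Pool.Agent.MP_2489e7_pr.H60.PingPong
import Pool.Agent.MP_2489e7_pr.H60.Wedge

/-! Assembly of the example. -/

open Matrix Filter Topology MeasureTheory

namespace Pool.Agent.MP_2489e7_pr.H60

variable {d : ℕ}

theorem exists_lox (hd : 2 ≤ d) (o : Fin d) (ho : (o : ℕ) = 0) (Λ : ℝ) (hΛ : 0 ≤ Λ) :
    ∃ lam : Fin d → ℝ, (∀ k, 0 < lam k) ∧
      (∀ s t : Finset (Fin d), s.card = t.card → ∏ k ∈ s, lam k = ∏ k ∈ t, lam k → s = t) ∧
      ∏ k, lam k = 1 ∧ 6 < lam o ∧ ∀ k, k ≠ o → 2 * d * Λ * lam k < lam o := by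
  have hd0 : (0 : ℝ) < d := by exact_mod_cast (by omega : 0 < d)
  have hd2 : (2 : ℝ) ≤ d := by exact_mod_cast hd
  set B : ℝ := 2 * d * Λ + 6 with hB
  have hB6 : 6 ≤ B := by have : 0 ≤ 2 * d * Λ := by positivity
                         linarith
  set κ : ℝ := (∑ k : Fin d, (2 : ℝ) ^ (k : ℕ)) / d with hκ
  have hge : ∀ k : Fin d, k ≠ o → (2 : ℝ) ≤ 2 ^ (k : ℕ) := by
    intro k hk
    have : (k : ℕ) ≠ 0 := fun h => hk (Fin.ext (h.trans ho.symm))
    exact le_self_pow₀ (by norm_num) this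
  have hκ2 : 3 / 2 ≤ κ := by
    rw [hκ, le_div_iff₀ hd0, ← Finset.add_sum_erase _ _ (Finset.mem_univ o), ho, pow_zero]
    have h1 : ∑ k ∈ Finset.univ.erase o, (2 : ℝ) ≤ ∑ k ∈ Finset.univ.erase o, (2 : ℝ) ^ (k : ℕ) :=
      Finset.sum_le_sum fun k hk => hge k (Finset.mem_erase.1 hk).1
    rw [Finset.sum_const, Finset.card_erase_of_mem (Finset.mem_univ _), Finset.card_univ,
      Fintype.card_fin, nsmul_eq_mul, Nat.cast_sub (by omega)] at h1
    push_cast at h1
    linarith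
  have hprod : ∀ s : Finset (Fin d), ∏ k ∈ s, Real.exp (2 * B * (κ - 2 ^ (k : ℕ))) =
      Real.exp (2 * B * (s.card * κ - ∑ k ∈ s, (2 : ℝ) ^ (k : ℕ))) := by
    intro s
    rw [← Real.exp_sum, ← Finset.mul_sum, Finset.sum_sub_distrib]
    simp
  refine ⟨fun k => Real.exp (2 * B * (κ - 2 ^ (k : ℕ))), fun k => Real.exp_pos _, ?_, ?_, ?_, ?_⟩
  · intro s t hst h
    rw [hprod, hprod, Real.exp_eq_exp, hst] at h
    have h1 : ∑ k ∈ s, (2 : ℝ) ^ (k : ℕ) = ∑ k ∈ t, (2 : ℝ) ^ (k : ℕ) := by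
      have := mul_left_cancel₀ (by positivity : 2 * B ≠ 0) h
      linarith
    have h2 : ∑ k ∈ s, 2 ^ (k : ℕ) = ∑ k ∈ t, 2 ^ (k : ℕ) := by exact_mod_cast h1
    apply Finset.map_injective Fin.valEmbedding
    apply Finset.geomSum_injective (n := 2) le_rfl
    simpa [Finset.sum_map] using h2
  · rw [hprod, hκ]
    simp only [Finset.card_univ, Fintype.card_fin]
    rw [mul_div_cancel₀ _ hd0.ne', sub_self, mul_zero, Real.exp_zero]
  · simp only [ho, pow_zero]
    have := Real.add_one_le_exp (2 * B * (κ - 1))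
    nlinarith
  · intro k hk
    simp only [ho, pow_zero]
    have h1 : 2 * B * (κ - 1) = 2 * B * (2 ^ (k : ℕ) - 1) + 2 * B * (κ - 2 ^ (k : ℕ)) := by ring
    rw [h1, Real.exp_add]
    apply mul_lt_mul_of_pos_right _ (Real.exp_pos _)
    have h2 := Real.add_one_le_exp (2 * B * (2 ^ (k : ℕ) - 1))
    have h3 := hge k hk
    nlinarith

theorem exists_conj (o : Fin d) (Λ : ℝ) (D : GL (Fin d) ℝ)
    (h6 : 6 < (D : Matrix (Fin d) (Fin d) ℝ) o o)
    (hdom : ∀ k l, ¬ (k = o ∧ l = o) → 2 * d * Λ * |(D : Matrix (Fin d) (Fin d) ℝ) k l| <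
      (D : Matrix (Fin d) (Fin d) ℝ) o o) :
    ∃ R : GL (Fin d) ℝ, (∀ i, i ≤ d →
      ∀ f g : Fin i ↪ Fin d, ((R : Matrix (Fin d) (Fin d) ℝ).submatrix f g).det ≠ 0) ∧
      6 < ((R * D * R⁻¹ : GL (Fin d) ℝ) : Matrix (Fin d) (Fin d) ℝ) o o ∧
      ∀ k l, ¬ (k = o ∧ l = o) →
        2 * d * Λ * |((R * D * R⁻¹ : GL (Fin d) ℝ) : Matrix (Fin d) (Fin d) ℝ) k l| <
          ((R * D * R⁻¹ : GL (Fin d) ℝ) : Matrix (Fin d) (Fin d) ℝ) o o := by
  set F : Matrix (Fin d) (Fin d) ℝ → Matrix (Fin d) (Fin d) ℝ := fun R => R * D * R⁻¹ with hF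
  have hc : ContinuousAt F 1 := by
    have h1 : ContinuousAt (Inv.inv : Matrix (Fin d) (Fin d) ℝ → _) 1 := by
      apply continuousAt_matrix_inv
      rw [det_one, Ring.inverse_eq_inv']
      exact continuousAt_inv₀ one_ne_zero
    exact (continuousAt_id.mul continuousAt_const).mul h1
  have hF1 : F 1 = D := by simp [hF]
  set O : Set (Matrix (Fin d) (Fin d) ℝ) := {A | 6 < A o o} ∩
    ⋂ kl : Fin d × Fin d, {A | ¬ (kl.1 = o ∧ kl.2 = o) → 2 * d * Λ * |A kl.1 kl.2| < A o o}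
    with hO
  have hOo : IsOpen O := by
    refine IsOpen.inter (isOpen_lt continuous_const (continuous_apply_apply o o)) ?_
    refine isOpen_iInter_of_finite fun kl => ?_
    by_cases h : kl.1 = o ∧ kl.2 = o
    · simp [h]
    · simp only [h, not_false_eq_true, forall_const]
      exact isOpen_lt (continuous_const.mul (continuous_id.matrix_elem kl.1 kl.2).abs)
        (continuous_id.matrix_elem o o)
  have hmem : F ⁻¹' O ∈ 𝓝 (1 : Matrix (Fin d) (Fin d) ℝ) := by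
    apply hc.preimage_mem_nhds
    rw [hF1]
    exact hOo.mem_nhds ⟨h6, Set.mem_iInter.2 fun kl => hdom kl.1 kl.2⟩
  obtain ⟨R, hR1, hR2⟩ := exists_generic _ hmem
  have hval : ((R * D * R⁻¹ : GL (Fin d) ℝ) : Matrix (Fin d) (Fin d) ℝ) = F R := by
    simp [hF]
  refine ⟨R, hR2, ?_, ?_⟩
  · rw [hval]; exact hR1.1
  · rw [hval]; exact fun k l => Set.mem_iInter.1 hR1.2 (k, l)

theorem limit_le {u : ℕ → ℝ} {L α : ℝ} (hu : ∀ n, 0 < u n) (h : ∀ n, u n ≤ α ^ n)
    (hL : Tendsto (fun n : ℕ => (1 / (n : ℝ)) * Real.log (u n)) atTop (𝓝 L)) :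
    L ≤ Real.log α := by
  refine le_of_tendsto hL ?_
  filter_upwards [eventually_gt_atTop 0] with n hn
  have hn' : (0 : ℝ) < n := by exact_mod_cast hn
  have := Real.log_le_log (hu n) (h n)
  rw [Real.log_pow] at this
  rw [one_div, inv_mul_le_iff₀ hn']
  exact this

theorem le_limit {u : ℕ → ℝ} {L α C t : ℝ} (hα : 0 < α) (hC : 0 ≤ C)
    (h : ∀ n : ℕ, α ^ n * (1 + n * C) ^ t ≤ u n)
    (hL : Tendsto (fun n : ℕ => (1 / (n : ℝ)) * Real.log (u n)) atTop (𝓝 L)) :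
    Real.log α ≤ L := by
  have h0 : Tendsto (fun n : ℕ => Real.log (1 + n * C) / n) atTop (𝓝 0) := by
    have h1 : Tendsto (fun n : ℕ => Real.log (1 + C) / n) atTop (𝓝 0) :=
      tendsto_const_div_atTop_nhds_zero_nat _
    have h2 : Tendsto (fun n : ℕ => Real.log n / n) atTop (𝓝 0) := by
      have := (Real.tendsto_pow_log_div_mul_add_atTop 1 0 1 one_ne_zero).comp
        tendsto_natCast_atTop_atTop
      simpa [Function.comp_def] using this
    have h3 := h1.add h2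
    rw [add_zero] at h3
    refine squeeze_zero' ?_ ?_ h3
    · filter_upwards with n
      apply div_nonneg (Real.log_nonneg _) (Nat.cast_nonneg _)
      have : 0 ≤ n * C := by positivity
      linarith
    · filter_upwards [eventually_ge_atTop 1] with n hn
      have hn' : (1 : ℝ) ≤ n := by exact_mod_cast hn
      rw [← add_div, ← Real.log_mul (by positivity) (by positivity)]
      gcongr
      nlinarith
  have h4 : Tendsto (fun n : ℕ => Real.log α + t * (Real.log (1 + n * C) / n)) atTop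
      (𝓝 (Real.log α)) := by
    simpa using (h0.const_mul t).const_add (Real.log α)
  refine le_of_tendsto_of_tendsto h4 hL ?_
  filter_upwards [eventually_gt_atTop 0] with n hn
  have hn' : (0 : ℝ) < n := by exact_mod_cast hn
  have hb : 0 < 1 + n * C := by positivity
  have := Real.log_le_log (mul_pos (pow_pos hα n) (Real.rpow_pos_of_pos hb t)) (h n)
  rw [Real.log_mul (pow_pos hα n).ne' (Real.rpow_pos_of_pos hb t).ne', Real.log_pow,
    Real.log_rpow hb] at this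
  rw [one_div, le_inv_mul_iff₀ hn']
  refine le_of_eq_of_le ?_ this
  field_simp

theorem not_differentiableAt_of_kink (k : ℝ → ℝ) (x a b a' b' : ℝ) (hne : a ≠ a')
    (h1 : ∀ t ∈ Set.Icc (x - 1) x, k t = a * t + b)
    (h2 : ∀ t ∈ Set.Icc x (x + 1), k t = a' * t + b') : ¬ DifferentiableAt ℝ k x := by
  intro hk
  have hl : HasDerivWithinAt k a (Set.Icc (x - 1) x) x := by
    have : HasDerivAt (fun t => a * t + b) a x := by
      simpa using ((hasDerivAt_id x).const_mul a).add_const b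
    exact this.hasDerivWithinAt.congr h1 (h1 x ⟨by linarith, le_rfl⟩)
  have hr : HasDerivWithinAt k a' (Set.Icc x (x + 1)) x := by
    have : HasDerivAt (fun t => a' * t + b') a' x := by
      simpa using ((hasDerivAt_id x).const_mul a').add_const b'
    exact this.hasDerivWithinAt.congr h2 (h2 x ⟨le_rfl, by linarith⟩)
  have e1 := (uniqueDiffOn_Icc (by linarith : x - 1 < x) x ⟨by linarith, le_rfl⟩).eq_deriv _
    hl hk.hasDerivAt.hasDerivWithinAt
  have e2 := (uniqueDiffOn_Icc (by linarith : x < x + 1) x ⟨le_rfl, by linarith⟩).eq_deriv _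
    hr hk.hasDerivAt.hasDerivWithinAt
  exact hne (e1.trans e2.symm)

theorem envelope (j m : ℕ) (τ : ℝ) (h1 : 2 * m - 1 ≤ τ) (h2 : τ ≤ 2 * m + 1) :
    j * τ - j ^ 2 ≤ m * τ - m ^ 2 := by
  rcases lt_trichotomy j m with h | h | h
  · have : (j : ℝ) + 1 ≤ m := by exact_mod_cast h
    nlinarith
  · rw [h]
  · have : (m : ℝ) + 1 ≤ j := by exact_mod_cast h
    nlinarith

theorem main (d : ℕ) (hd : 2 ≤ d) (N : ℕ)
    [MeasurableSpace (GL (Fin d) ℝ)] [BorelSpace (GL (Fin d) ℝ)] :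
    ∃ μ : Measure (GL (Fin d) ℝ), IsProbabilityMeasure μ ∧ μ.support.Finite ∧
      (3 ≤ d → ∀ g ∈ μ.support, (g : Matrix (Fin d) (Fin d) ℝ).det = 1) ∧
      (∀ i, 1 ≤ i → i ≤ d - 1 →
        GoodOnWedge (fun g : GL (Fin d) ℝ => (g : Matrix (Fin d) (Fin d) ℝ).mulVecLin)
          (closedSemigroup μ) i) ∧
      ∃ k : ℝ → ℝ,
        (∀ t : ℝ, Tendsto
          (fun n : ℕ => (1 / (n : ℝ)) * Real.log (∫ g, opNorm g ^ t ∂(convPow μ n)))
          atTop (𝓝 (k t))) ∧
        ∃ F : Finset ℝ, F.card = N ∧ ∀ t ∈ F, ¬ DifferentiableAt ℝ k t := by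
  have : NeZero d := ⟨by omega⟩
  set o : Fin d := ⟨0, by omega⟩ with ho
  set e : Fin d := ⟨1, by omega⟩ with he
  have hoe : o ≠ e := by simp [ho, he]
  obtain ⟨lam, hpos, hinj, hprod, h6, hdom⟩ := exists_lox hd o rfl (2 * N + 3) (by positivity)
  obtain ⟨D, hD⟩ : ∃ D : GL (Fin d) ℝ, (D : Matrix (Fin d) (Fin d) ℝ) = diagonal lam :=
    ⟨GeneralLinearGroup.mkOfDetNeZero (diagonal lam)
      (by rw [det_diagonal, hprod]; exact one_ne_zero), rfl⟩
  have hD6 : 6 < (D : Matrix (Fin d) (Fin d) ℝ) o o := by rw [hD]; simpa using h6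
  have hDdom : ∀ k l, ¬ (k = o ∧ l = o) →
      2 * d * (2 * N + 3 : ℝ) * |(D : Matrix (Fin d) (Fin d) ℝ) k l| <
      (D : Matrix (Fin d) (Fin d) ℝ) o o := by
    intro k l hkl
    rw [hD, diagonal_apply_eq]
    by_cases h : k = l
    · subst h
      rw [diagonal_apply_eq, abs_of_pos (hpos k)]
      exact hdom k fun h => hkl ⟨h, h⟩
    · rw [diagonal_apply_ne _ h]; simpa using hpos o
  obtain ⟨R, hR, hR6, hRdom⟩ := exists_conj o (2 * N + 3) D hD6 hDdom
  obtain ⟨δ, hδ⟩ : ∃ δ : Fin (N + 1) → ℝ, ∀ j, δ j = Real.exp (-((j : ℕ) * d / (d - 2))) :=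
    ⟨_, fun _ => rfl⟩
  have hδ1 : ∀ j, |δ j| ≤ 1 := by
    intro j
    rw [hδ, abs_of_pos (Real.exp_pos _), Real.exp_le_one_iff, neg_nonpos]
    have : (0 : ℝ) ≤ d - 2 := by
      have : (2 : ℝ) ≤ d := by exact_mod_cast hd
      linarith
    positivity
  obtain ⟨idx, hidx, hidx'⟩ : ∃ idx : Fin (N + 1) ⊕ Bool → ℕ,
      (∀ j, idx (.inl j) = j) ∧ ∀ b, idx (.inr b) = 0 :=
    ⟨Sum.elim (fun j => j) (fun _ => 0), fun _ => rfl, fun _ => rfl⟩
  obtain ⟨A, hA, hA1, hA2⟩ : ∃ A : Fin (N + 1) ⊕ Bool → Matrix (Fin d) (Fin d) ℝ,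
      (∀ j, A (.inl j) = dia o e (δ j) + nil o e (2 * (j : ℕ) + 2) (4 * N + 5)) ∧
      A (.inr true) = D ∧ A (.inr false) = (R * D * R⁻¹ : GL (Fin d) ℝ) :=
    ⟨Sum.elim (fun j => dia o e (δ j) + nil o e (2 * (j : ℕ) + 2) (4 * N + 5))
      (fun b => cond b D (R * D * R⁻¹ : GL (Fin d) ℝ)), fun _ => rfl, rfl, rfl⟩
  obtain ⟨a, ha⟩ : ∃ a : Fin (N + 1) ⊕ Bool → ℝ, ∀ l, a l = Real.exp (idx l) := ⟨_, fun _ => rfl⟩
  have hapos : ∀ l, 0 < a l := fun l => by rw [ha]; exact Real.exp_pos _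
  have hdet : ∀ l, (a l • A l).det ≠ 0 ∧ (3 ≤ d → (a l • A l).det = 1) := by
    rintro (j | _ | _)
    · simp only [hA, ha, hidx, det_smul, par_det hoe, Fintype.card_fin, hδ]
      refine ⟨by positivity, fun h3 => ?_⟩
      rw [← Real.exp_nat_mul, ← Real.exp_nat_mul, ← Real.exp_add, Nat.cast_sub hd,
        Real.exp_eq_one_iff]
      have : (d : ℝ) - 2 ≠ 0 := by
        have : (3 : ℝ) ≤ d := by exact_mod_cast h3
        linarith
      push_cast
      field_simp
      ring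
    · have : (a (.inr false) • A (.inr false)).det = 1 := by
        simp only [hA2, ha, hidx', Nat.cast_zero, Real.exp_zero, one_smul]
        rw [Units.val_mul, Units.val_mul, det_mul, det_mul, mul_right_comm, ← det_mul,
          ← Units.val_mul, mul_inv_cancel, hD, det_diagonal, hprod]
        simp
      rw [this]; simp
    · have : (a (.inr true) • A (.inr true)).det = 1 := by
        simp only [hA1, ha, hidx', Nat.cast_zero, Real.exp_zero, one_smul]
        rw [hD, det_diagonal, hprod]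
      rw [this]; simp
  obtain ⟨g, hg⟩ : ∃ g : Fin (N + 1) ⊕ Bool → GL (Fin d) ℝ,
      ∀ l, (g l : Matrix (Fin d) (Fin d) ℝ) = a l • A l :=
    ⟨fun l => GeneralLinearGroup.mkOfDetNeZero (a l • A l) (hdet l).1, fun _ => rfl⟩
  have hg1 : g (.inr true) = D := by
    refine Units.ext ((hg _).trans ?_); simp [hA1, ha, hidx']
  have hg2 : g (.inr false) = R * D * R⁻¹ := by
    refine Units.ext ((hg _).trans ?_)
    simp only [hA2, ha, hidx', Nat.cast_zero, Real.exp_zero, one_smul]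
  obtain ⟨w, hw⟩ : ∃ w : Fin (N + 1) ⊕ Bool → ℝ,
      ∀ l, w l = Real.exp (idx l * (2 * N + 2) - (idx l : ℝ) ^ 2) := ⟨_, fun _ => rfl⟩
  have hwpos : ∀ l, 0 < w l := fun l => by rw [hw]; exact Real.exp_pos _
  obtain ⟨Z, hZ⟩ : ∃ Z : ℝ, Z = ∑ l, w l := ⟨_, rfl⟩
  have hZpos : 0 < Z := by
    rw [hZ]; exact Finset.sum_pos (fun l _ => hwpos l) Finset.univ_nonempty
  obtain ⟨p, hpdef⟩ : ∃ p : Fin (N + 1) ⊕ Bool → ℝ, ∀ l, p l = w l / Z := ⟨_, fun _ => rfl⟩
  have hp : ∀ l, 0 < p l := fun l => by rw [hpdef]; exact div_pos (hwpos l) hZpos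
  have hs : ∑ l, p l = 1 := by
    simp only [hpdef]; rw [← Finset.sum_div, ← hZ, div_self hZpos.ne']
  have hsupp := atomic_support p g hp
  have hmemS : ∀ l, g l ∈ closedSemigroup (atomic p g) := fun l =>
    subset_closure (Subsemigroup.subset_closure (by rw [hsupp]; exact ⟨l, rfl⟩))
  choose k hk using mom_tendsto p g hp hs
  have hpa : ∀ l t, p l * a l ^ t =
      Real.exp (idx l * (2 * N + 2 + t) - (idx l : ℝ) ^ 2) / Z := by
    intro l t
    simp only [hpdef, hw, ha]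
    rw [← Real.exp_mul, div_mul_eq_mul_div, ← Real.exp_add]
    congr 2; ring
  have hline : ∀ m : Fin (N + 1), ∀ t : ℝ, t ≤ -2 → 2 * (m : ℕ) - 1 ≤ 2 * N + 2 + t →
      2 * N + 2 + t ≤ 2 * (m : ℕ) + 1 →
      k t = (m : ℕ) * t + ((m : ℕ) * (2 * N + 2) - ((m : ℕ) : ℝ) ^ 2 - Real.log Z) := by
    intro m t ht h1 h2
    have hα0 : 0 < p (.inl m) * a (.inl m) ^ t :=
      mul_pos (hp _) (Real.rpow_pos_of_pos (hapos _) t)
    have hlog : Real.log (p (.inl m) * a (.inl m) ^ t) =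
        (m : ℕ) * t + ((m : ℕ) * (2 * N + 2) - ((m : ℕ) : ℝ) ^ 2 - Real.log Z) := by
      rw [hpa, Real.log_div (Real.exp_pos _).ne' hZpos.ne', Real.log_exp]
      simp only [hidx]; ring
    rw [← hlog]
    apply le_antisymm
    · refine limit_le (mom_pos p g hp t) (fun n => ?_) (hk t)
      refine pingpong hoe N p g hp A a hapos hg δ hδ1 hA ?_ ?_ t ht _ ?_ hα0 n
      · rintro (_ | _)
        · rw [hA2]; exact hR6
        · rw [hA1]; exact hD6
      · rintro (_ | _)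
        · rw [hA2]; exact hRdom
        · rw [hA1]; exact hDdom
      · intro l
        rw [hpa, hpa, hidx]
        exact div_le_div_of_nonneg_right (Real.exp_le_exp.2 (envelope (idx l) m _ h1 h2)) hZpos.le
    · obtain ⟨C, hC, hCn⟩ := opNorm_par_pow hoe _ _ _ (g (.inl m)) (a (.inl m)) (hapos _) (hδ1 m)
        (by rw [hg, hA])
      refine le_limit (t := t) hα0 hC (fun n => ?_) (hk t)
      refine le_trans ?_ (ex_ge_pow p g hp (.inl m) n _
        fun x => Real.rpow_pos_of_pos (opNorm_pos x) t)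
      have hb : 0 < 1 + n * C := by positivity
      have h3 := Real.rpow_le_rpow_of_nonpos (opNorm_pos _) (hCn n) (by linarith : t ≤ 0)
      rw [Real.mul_rpow (pow_pos (hapos _) n).le hb.le, ← Real.rpow_natCast,
        ← Real.rpow_mul (hapos _).le, mul_comm (n : ℝ) t, Real.rpow_mul (hapos _).le,
        Real.rpow_natCast] at h3
      rw [mul_pow, mul_assoc]
      exact mul_le_mul_of_nonneg_left h3 (pow_pos (hp _) n).le
  refine ⟨atomic p g, atomic_isProb p g hp hs, by rw [hsupp]; exact Set.finite_range g, ?_, ?_,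
    k, ?_, (Finset.range N).image (fun j : ℕ => (2 * j - 1 - 2 * N : ℝ)), ?_, ?_⟩
  · intro h3 x hx
    rw [hsupp] at hx
    obtain ⟨l, rfl⟩ := hx
    rw [hg]; exact (hdet l).2 h3
  · intro i _ hi
    exact ⟨stronglyIrreducible_of i _ lam hpos hinj D R hD (hR i (by omega)) (hg1 ▸ hmemS _)
      (hg2 ▸ hmemS _), proximal_of i (by omega) _ lam hpos hinj D hD (hg1 ▸ hmemS _)⟩
  · intro t
    refine (hk t).congr fun n => ?_
    rw [((integral_convPow p g hp hs n).2 _).2]; rfl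
  · rw [Finset.card_image_of_injective _ ?_, Finset.card_range]
    intro x y hxy
    have : (x : ℝ) = y := by simp only at hxy; linarith
    exact_mod_cast this
  · intro t ht
    obtain ⟨j, hj, rfl⟩ := Finset.mem_image.1 ht
    have hjN : j < N := Finset.mem_range.1 hj
    have hjN' : (j : ℝ) + 1 ≤ N := by exact_mod_cast hjN
    refine not_differentiableAt_of_kink k _ (j : ℝ) _ ((j + 1 : ℕ) : ℝ) _ (by simp)
      (fun t ht => hline ⟨j, by omega⟩ t ?_ ?_ ?_) (fun t ht => hline ⟨j + 1, by omega⟩ t ?_ ?_ ?_)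
    · linarith [ht.2]
    · simp only; linarith [ht.1]
    · simp only; linarith [ht.2]
    · linarith [ht.2]
    · simp only; push_cast; linarith [ht.1]
    · simp only; push_cast; linarith [ht.2]

end Pool.Agent.MP_2489e7_pr.H60
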