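import Pool.Agent.MP_2489e7_pr.H60.Defs

/-! Finitely supported measures: moments as finite sums, existence of the limit. -/

open MeasureTheory Filter Topology

namespace Pool.Agent.MP_2489e7_pr.H60

variable {d : ℕ} {ι : Type} [Fintype ι]

/-- Expectation of `f` over products of `n` independent letters. -/
noncomputable def ex (p : ι → ℝ) (g : ι → GL (Fin d) ℝ) : ℕ → (GL (Fin d) ℝ → ℝ) → ℝ
  | 0, f => f 1
  | n + 1, f => ∑ l, p l * ex p g n (fun x => f (x * g l))

/-- The finitely supported measure with weights `p` at the points `g`. -/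
noncomputable def atomic [MeasurableSpace (GL (Fin d) ℝ)] (p : ι → ℝ) (g : ι → GL (Fin d) ℝ) :
    Measure (GL (Fin d) ℝ) :=
  ∑ l, ENNReal.ofReal (p l) • Measure.dirac (g l)

theorem opNorm_eq (g : GL (Fin d) ℝ) : opNorm g =
    ‖Matrix.toEuclideanCLM (n := Fin d) (𝕜 := ℝ) (g : Matrix (Fin d) (Fin d) ℝ)‖ := by
  rw [opNorm, ContinuousLinearMap.norm_def]
  congr 1
  ext c
  simp only [Set.mem_ofPred_eq, EuclideanSpace.norm_eq, Real.norm_eq_abs, sq_abs,
    Matrix.ofLp_toEuclideanCLM]
  refine and_congr_right fun _ => ⟨fun h v => h v.ofLp, fun h v => h (WithLp.toLp 2 v)⟩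

theorem convPow_zero {G : Type} [Monoid G] [MeasurableSpace G] (μ : Measure G) :
    convPow μ 0 = Measure.dirac 1 := rfl

theorem convPow_succ {G : Type} [Monoid G] [MeasurableSpace G] (μ : Measure G) (n : ℕ) :
    convPow μ (n + 1) = (convPow μ n).mconv μ := Function.iterate_succ_apply' _ _ _

theorem secondCountable_GL : SecondCountableTopology (GL (Fin d) ℝ) := by
  have : SecondCountableTopology (Matrix (Fin d) (Fin d) ℝ) :=
    inferInstanceAs (SecondCountableTopology (Fin d → Fin d → ℝ))
  have : SecondCountableTopology (Matrix (Fin d) (Fin d) ℝ)ᵐᵒᵖ :=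
    MulOpposite.opHomeomorph.symm.isEmbedding.secondCountableTopology
  exact Units.isEmbedding_embedProduct.secondCountableTopology

section meas
variable [MeasurableSpace (GL (Fin d) ℝ)] [BorelSpace (GL (Fin d) ℝ)]

omit [BorelSpace (GL (Fin d) ℝ)] in
theorem atomic_isProb (p : ι → ℝ) (g : ι → GL (Fin d) ℝ) (hp : ∀ l, 0 < p l)
    (hs : ∑ l, p l = 1) : IsProbabilityMeasure (atomic p g) := by
  constructor
  simp only [atomic, Measure.coe_finsetSum, Finset.sum_apply, Measure.smul_apply, measure_univ,
    smul_eq_mul, mul_one]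
  rw [← ENNReal.ofReal_sum_of_nonneg (fun l _ => (hp l).le), hs]
  simp

theorem atomic_support (p : ι → ℝ) (g : ι → GL (Fin d) ℝ) (hp : ∀ l, 0 < p l) :
    (atomic p g).support = Set.range g := by
  apply Set.Subset.antisymm
  · apply Measure.support_subset_of_isClosed (Set.finite_range g).isClosed
    rw [mem_ae_iff]
    simp only [atomic, Measure.coe_finsetSum, Finset.sum_apply, Measure.smul_apply, smul_eq_mul]
    apply Finset.sum_eq_zero
    intro l _
    rw [Measure.dirac_apply' _ (Set.finite_range g).isClosed.measurableSet.compl]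
    simp
  · rintro _ ⟨l, rfl⟩
    rw [Measure.mem_support_iff_forall]
    intro U hU
    simp only [atomic, Measure.coe_finsetSum, Finset.sum_apply, Measure.smul_apply, smul_eq_mul]
    refine lt_of_lt_of_le ?_ (Finset.single_le_sum (f := fun l => ENNReal.ofReal (p l) *
      Measure.dirac (g l) U) (fun _ _ => zero_le) (Finset.mem_univ l))
    rw [Measure.dirac_apply_of_mem (mem_of_mem_nhds hU)]
    simpa using hp l

theorem mconv_atomic (p : ι → ℝ) (g : ι → GL (Fin d) ℝ) (ν : Measure (GL (Fin d) ℝ))
    [SFinite ν] :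
    ν.mconv (atomic p g) = ∑ l, ENNReal.ofReal (p l) • ν.map (fun x => x * g l) := by
  have := secondCountable_GL (d := d)
  classical
  unfold atomic
  induction (Finset.univ : Finset ι) using Finset.induction_on with
  | empty => simp
  | insert a s ha ih =>
    have : IsFiniteMeasure (∑ x ∈ s, ENNReal.ofReal (p x) • Measure.dirac (g x)) := by
      constructor
      simp only [Measure.coe_finsetSum, Finset.sum_apply, Measure.smul_apply, measure_univ,
        smul_eq_mul, mul_one]
      exact ENNReal.sum_lt_top.2 fun _ _ => ENNReal.ofReal_lt_top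
    rw [Finset.sum_insert ha, Finset.sum_insert ha, Measure.mconv_add, ih,
      Measure.mconv_smul_right, Measure.mconv_dirac]

theorem integral_convPow (p : ι → ℝ) (g : ι → GL (Fin d) ℝ) (hp : ∀ l, 0 < p l)
    (hs : ∑ l, p l = 1) (n : ℕ) :
    IsProbabilityMeasure (convPow (atomic p g) n) ∧ ∀ f : GL (Fin d) ℝ → ℝ,
      Integrable f (convPow (atomic p g) n) ∧ ∫ x, f x ∂(convPow (atomic p g) n) = ex p g n f := by
  have := secondCountable_GL (d := d)
  have := atomic_isProb p g hp hs
  induction n with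
  | zero =>
    refine ⟨by rw [convPow_zero]; infer_instance, fun f => ⟨?_, ?_⟩⟩
    · rw [convPow_zero]; exact integrable_dirac (by simp)
    · simp [convPow_zero, ex]
  | succ n ih =>
    obtain ⟨h1, h2⟩ := ih
    refine ⟨by rw [convPow_succ]; infer_instance, fun f => ?_⟩
    simp only [convPow_succ, ex]
    rw [mconv_atomic]
    have hint : ∀ l, Integrable f (ENNReal.ofReal (p l) •
        (convPow (atomic p g) n).map (fun x => x * g l)) := by
      intro l
      apply Integrable.smul_measure _ ENNReal.ofReal_ne_top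
      exact (integrable_map_equiv (MeasurableEquiv.mulRight (g l)) f).2 (h2 _).1
    refine ⟨integrable_finsetSum_measure.2 fun l _ => hint l, ?_⟩
    rw [integral_finsetSum_measure fun l _ => hint l]
    refine Finset.sum_congr rfl fun l _ => ?_
    rw [integral_smul_measure, ENNReal.toReal_ofReal (hp l).le, smul_eq_mul]
    congr 1
    exact (integral_map_equiv (MeasurableEquiv.mulRight (g l)) f).trans (h2 _).2

end meas

section alg
variable (p : ι → ℝ) (g : ι → GL (Fin d) ℝ)

theorem ex_mono (hp : ∀ l, 0 < p l) (n : ℕ) : ∀ f f' : GL (Fin d) ℝ → ℝ, (∀ x, f x ≤ f' x) →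
    ex p g n f ≤ ex p g n f' := by
  induction n with
  | zero => intro f f' h; exact h 1
  | succ n ih =>
    intro f f' h
    exact Finset.sum_le_sum fun l _ =>
      mul_le_mul_of_nonneg_left (ih _ _ fun x => h _) (hp l).le

theorem ex_mul_const (n : ℕ) : ∀ (f : GL (Fin d) ℝ → ℝ) (c : ℝ),
    ex p g n (fun x => f x * c) = ex p g n f * c := by
  induction n with
  | zero => intro f c; rfl
  | succ n ih =>
    intro f c
    simp only [ex, Finset.sum_mul]
    refine Finset.sum_congr rfl fun l _ => ?_
    rw [ih (fun x => f (x * g l)) c]; ring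

theorem ex_add (n m : ℕ) : ∀ f : GL (Fin d) ℝ → ℝ,
    ex p g (n + m) f = ex p g m (fun y => ex p g n (fun x => f (x * y))) := by
  induction m with
  | zero => intro f; simp [ex]
  | succ m ih =>
    intro f
    rw [← add_assoc]
    simp only [ex]
    refine Finset.sum_congr rfl fun l _ => ?_
    rw [ih]
    simp only [mul_assoc]

theorem ex_pos [Nonempty ι] (hp : ∀ l, 0 < p l) (n : ℕ) : ∀ f : GL (Fin d) ℝ → ℝ,
    (∀ x, 0 < f x) → 0 < ex p g n f := by
  induction n with
  | zero => intro f h; exact h 1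
  | succ n ih =>
    intro f h
    exact Finset.sum_pos (fun l _ => mul_pos (hp l) (ih _ fun x => h _)) Finset.univ_nonempty

theorem ex_ge_pow (hp : ∀ l, 0 < p l) (l : ι) (n : ℕ) : ∀ f : GL (Fin d) ℝ → ℝ,
    (∀ x, 0 < f x) → p l ^ n * f (g l ^ n) ≤ ex p g n f := by
  have : Nonempty ι := ⟨l⟩
  induction n with
  | zero => intro f _; simp [ex]
  | succ n ih =>
    intro f h
    have h1 := ih (fun x => f (x * g l)) fun x => h _
    calc p l ^ (n + 1) * f (g l ^ (n + 1)) = p l * (p l ^ n * f (g l ^ n * g l)) := by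
          rw [pow_succ, pow_succ]; ring
      _ ≤ p l * ex p g n (fun x => f (x * g l)) := mul_le_mul_of_nonneg_left h1 (hp l).le
      _ ≤ _ := Finset.single_le_sum (f := fun l => p l * ex p g n (fun x => f (x * g l)))
          (fun l _ => (mul_pos (hp l) (ex_pos p g hp n _ fun x => h _)).le) (Finset.mem_univ l)

end alg

theorem opNorm_mul_le (x y : GL (Fin d) ℝ) : opNorm (x * y) ≤ opNorm x * opNorm y := by
  simp only [opNorm_eq]
  rw [Units.val_mul, map_mul]
  exact norm_mul_le _ _

theorem opNorm_one [NeZero d] : opNorm (1 : GL (Fin d) ℝ) = 1 := by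
  simp only [opNorm_eq]
  rw [Units.val_one, map_one, norm_one]

theorem opNorm_nonneg (x : GL (Fin d) ℝ) : 0 ≤ opNorm x := by
  rw [opNorm_eq]; exact norm_nonneg _

theorem opNorm_pos [NeZero d] (x : GL (Fin d) ℝ) : 0 < opNorm x := by
  have h := opNorm_mul_le x x⁻¹
  rw [mul_inv_cancel, opNorm_one] at h
  rcases (opNorm_nonneg x).lt_or_eq with h1 | h1
  · exact h1
  · rw [← h1] at h; linarith

theorem opNorm_le_mul_inv (x y : GL (Fin d) ℝ) : opNorm x ≤ opNorm (x * y) * opNorm y⁻¹ := by
  simpa using opNorm_mul_le (x * y) y⁻¹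

/-- The `t`-th moment of the norm of a product of `n` letters. -/
noncomputable def mom (p : ι → ℝ) (g : ι → GL (Fin d) ℝ) (t : ℝ) (n : ℕ) : ℝ :=
  ex p g n (fun x => opNorm x ^ t)

theorem mom_pos [NeZero d] [Nonempty ι] (p : ι → ℝ) (g : ι → GL (Fin d) ℝ) (hp : ∀ l, 0 < p l)
    (t : ℝ) (n : ℕ) : 0 < mom p g t n :=
  ex_pos p g hp n _ fun x => Real.rpow_pos_of_pos (opNorm_pos x) t

theorem mom_tendsto [NeZero d] [Nonempty ι] (p : ι → ℝ) (g : ι → GL (Fin d) ℝ)
    (hp : ∀ l, 0 < p l) (hs : ∑ l, p l = 1) (t : ℝ) :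
    ∃ L : ℝ, Tendsto (fun n : ℕ => (1 / (n : ℝ)) * Real.log (mom p g t n)) atTop (𝓝 L) := by
  have hpos := mom_pos p g hp t
  obtain ⟨l₀, hl₀⟩ := Finite.exists_max fun l => opNorm (g l)⁻¹
  set C := opNorm (g l₀)⁻¹ with hC
  have hCpos : 0 < C := opNorm_pos _
  have hstep : ∀ x l, opNorm x * C⁻¹ ≤ opNorm (x * g l) := by
    intro x l
    rw [mul_inv_le_iff₀ hCpos]
    exact (opNorm_le_mul_inv x (g l)).trans
      (mul_le_mul_of_nonneg_left (hl₀ l) (opNorm_nonneg _))
  have hmom0 : mom p g t 0 = 1 := by simp [mom, ex, opNorm_one]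
  rcases le_total 0 t with ht | ht
  · have hsub : Subadditive fun n => Real.log (mom p g t n) := by
      intro n m
      rw [← Real.log_mul (hpos n).ne' (hpos m).ne']
      apply Real.log_le_log (hpos _)
      unfold mom
      rw [ex_add, mul_comm, ← ex_mul_const]
      apply ex_mono p g hp
      intro y
      rw [mul_comm, ← ex_mul_const]
      apply ex_mono p g hp
      intro x
      rw [← Real.mul_rpow (opNorm_nonneg _) (opNorm_nonneg _)]
      exact Real.rpow_le_rpow (opNorm_nonneg _) (opNorm_mul_le x y) ht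
    have hlow : ∀ n : ℕ, (C⁻¹ ^ t) ^ n ≤ mom p g t n := by
      intro n
      induction n with
      | zero => simp [hmom0]
      | succ n ih =>
        have : ∀ l, mom p g t n * C⁻¹ ^ t ≤ ex p g n (fun x => opNorm (x * g l) ^ t) := by
          intro l
          unfold mom
          rw [← ex_mul_const]
          apply ex_mono p g hp
          intro x
          rw [← Real.mul_rpow (opNorm_nonneg _) (inv_pos.2 hCpos).le]
          exact Real.rpow_le_rpow (mul_nonneg (opNorm_nonneg _) (inv_pos.2 hCpos).le)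
            (hstep x l) ht
        calc (C⁻¹ ^ t) ^ (n + 1) = (C⁻¹ ^ t) ^ n * C⁻¹ ^ t := pow_succ _ _
          _ ≤ mom p g t n * C⁻¹ ^ t :=
            mul_le_mul_of_nonneg_right ih (Real.rpow_nonneg (inv_pos.2 hCpos).le _)
          _ = ∑ l, p l * (mom p g t n * C⁻¹ ^ t) := by rw [← Finset.sum_mul, hs, one_mul]
          _ ≤ _ := Finset.sum_le_sum fun l _ => mul_le_mul_of_nonneg_left (this l) (hp l).le
    have hb : BddBelow (Set.range fun n : ℕ => Real.log (mom p g t n) / n) := by
      refine ⟨min 0 (Real.log (C⁻¹ ^ t)), ?_⟩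
      rintro _ ⟨n, rfl⟩
      rcases Nat.eq_zero_or_pos n with rfl | hn
      · simp
      · refine (min_le_right _ _).trans ?_
        have hn' : (0 : ℝ) < n := by exact_mod_cast hn
        rw [le_div_iff₀ hn', mul_comm, ← Real.log_pow]
        exact Real.log_le_log (pow_pos (Real.rpow_pos_of_pos (inv_pos.2 hCpos) _) _) (hlow n)
    refine ⟨_, (hsub.tendsto_lim hb).congr fun n => ?_⟩
    ring
  · have hsub : Subadditive fun n => -Real.log (mom p g t n) := by
      intro n m
      rw [← neg_add, neg_le_neg_iff, ← Real.log_mul (hpos n).ne' (hpos m).ne']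
      apply Real.log_le_log (mul_pos (hpos _) (hpos _))
      unfold mom
      rw [ex_add, mul_comm, ← ex_mul_const]
      apply ex_mono p g hp
      intro y
      rw [mul_comm, ← ex_mul_const]
      apply ex_mono p g hp
      intro x
      rw [← Real.mul_rpow (opNorm_nonneg _) (opNorm_nonneg _)]
      exact Real.rpow_le_rpow_of_nonpos (opNorm_pos _) (opNorm_mul_le x y) ht
    have hup : ∀ n : ℕ, mom p g t n ≤ (C⁻¹ ^ t) ^ n := by
      intro n
      induction n with
      | zero => simp [hmom0]
      | succ n ih =>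
        have : ∀ l, ex p g n (fun x => opNorm (x * g l) ^ t) ≤ mom p g t n * C⁻¹ ^ t := by
          intro l
          unfold mom
          rw [← ex_mul_const]
          apply ex_mono p g hp
          intro x
          rw [← Real.mul_rpow (opNorm_nonneg _) (inv_pos.2 hCpos).le]
          exact Real.rpow_le_rpow_of_nonpos (mul_pos (opNorm_pos _) (inv_pos.2 hCpos))
            (hstep x l) ht
        calc mom p g t (n + 1) ≤ ∑ l, p l * (mom p g t n * C⁻¹ ^ t) :=
            Finset.sum_le_sum fun l _ => mul_le_mul_of_nonneg_left (this l) (hp l).le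
          _ = mom p g t n * C⁻¹ ^ t := by rw [← Finset.sum_mul, hs, one_mul]
          _ ≤ (C⁻¹ ^ t) ^ n * C⁻¹ ^ t :=
            mul_le_mul_of_nonneg_right ih (Real.rpow_nonneg (inv_pos.2 hCpos).le _)
          _ = _ := (pow_succ _ _).symm
    have hb : BddBelow (Set.range fun n : ℕ => -Real.log (mom p g t n) / n) := by
      refine ⟨min 0 (-Real.log (C⁻¹ ^ t)), ?_⟩
      rintro _ ⟨n, rfl⟩
      rcases Nat.eq_zero_or_pos n with rfl | hn
      · simp
      · refine (min_le_right _ _).trans ?_
        have hn' : (0 : ℝ) < n := by exact_mod_cast hn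
        rw [le_div_iff₀ hn', neg_mul, neg_le_neg_iff, mul_comm, ← Real.log_pow]
        exact Real.log_le_log (hpos n) (hup n)
    refine ⟨_, (hsub.tendsto_lim hb).neg.congr fun n => ?_⟩
    ring

end Pool.Agent.MP_2489e7_pr.H60
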