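import Pool.Agent.MP_2489e7_pr.H60.Cone

/-! The ping-pong estimate: in the range `t ≤ -2` the moments are at most `α ^ n`. -/

open Matrix Filter Topology

namespace Pool.Agent.MP_2489e7_pr.H60

theorem mul_le_sq_of (U y : ℝ) (_h1 : 0 < U * y) (h2 : U ^ 2 ≤ U * y) :
    U * y ≤ y ^ 2 ∧ U ^ 2 ≤ y ^ 2 := by
  have : U * y ≤ y ^ 2 := by
    by_contra h
    push Not at h
    nlinarith [sq_nonneg y, sq_nonneg U, sq_nonneg (U - y)]
  exact ⟨this, h2.trans this⟩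

theorem parA (U y M : ℝ) (hM : 1 ≤ M) (h1 : 0 < U * y) (h2 : U ^ 2 ≤ U * y) :
    0 < U * (y + M * U) ∧ U ^ 2 ≤ U * (y + M * U) ∧ y ^ 2 ≤ (y + M * U) ^ 2 ∧
      1 / (U * (y + M * U)) ≤ 1 / (U * y) - 1 / (2 * y ^ 2) := by
  obtain ⟨h3, h4⟩ := mul_le_sq_of U y h1 h2
  have hU : 0 < U ^ 2 := by
    have : U ≠ 0 := left_ne_zero_of_mul h1.ne'
    positivity
  have hy : 0 < y ^ 2 := lt_of_lt_of_le h1 h3
  have hMU : 0 < M * U ^ 2 := by positivity
  have h5 : 0 < U * (y + M * U) := by nlinarith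
  refine ⟨h5, by nlinarith, by nlinarith [sq_nonneg (M * U)], ?_⟩
  rw [div_sub_div _ _ h1.ne' (by positivity), div_le_div_iff₀ h5 (by positivity)]
  have h6 : (U * y) ^ 2 = U ^ 2 * y ^ 2 := by ring
  have h7 : U * y * (M * U ^ 2) ≤ y ^ 2 * (M * U ^ 2) := by gcongr
  have h8 : U ^ 2 * y ^ 2 ≤ y ^ 2 * (M * U ^ 2) := by nlinarith [mul_pos hU hy]
  nlinarith

theorem parB (U y M : ℝ) (hM : 2 ≤ M) (hy : y ≠ 0) (h : y ^ 2 ≤ U ^ 2) :
    0 < U * (y + M * U) ∧ U ^ 2 ≤ U * (y + M * U) ∧ y ^ 2 ≤ (y + M * U) ^ 2 ∧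
      1 / (U * (y + M * U)) ≤ 1 / ((M - 1) * y ^ 2) := by
  have hy2 : 0 < y ^ 2 := by positivity
  have hU : 0 < U ^ 2 := lt_of_lt_of_le hy2 h
  have h1 : -(U ^ 2) ≤ U * y := by nlinarith [sq_nonneg (U + y)]
  have h2 : (M - 1) * U ^ 2 ≤ U * (y + M * U) := by nlinarith
  have h3 : U ^ 2 ≤ (M - 1) * U ^ 2 := by nlinarith
  have h4 : U ^ 2 ≤ U * (y + M * U) := h3.trans h2
  have h5 : 0 < U * (y + M * U) := lt_of_lt_of_le hU h4
  refine ⟨h5, h4, h.trans (mul_le_sq_of U _ h5 h4).2, ?_⟩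
  apply one_div_le_one_div_of_le (mul_pos (by linarith) hy2)
  refine le_trans ?_ h2
  gcongr; linarith

theorem far (U y m : ℝ) (h : U ^ 2 ≤ y ^ 2) (hm : 4 ≤ m ^ 2) : y ^ 2 ≤ (U + m * y) ^ 2 := by
  have h1 : |U| ≤ |y| := sq_le_sq.1 h
  have h2 : (2 : ℝ) ≤ |m| := by
    have : |(2 : ℝ)| ≤ |m| := sq_le_sq.1 (by linarith)
    simpa using this
  apply sq_le_sq.2
  have h3 := abs_add_le (U + m * y) (-U)
  rw [abs_neg, show U + m * y + -U = m * y by ring, abs_mul] at h3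
  nlinarith [abs_nonneg y]

variable {d : ℕ}

theorem pingpong {o e : Fin d} (hoe : o ≠ e) (N : ℕ) (p : Fin (N + 1) ⊕ Bool → ℝ)
    (g : Fin (N + 1) ⊕ Bool → GL (Fin d) ℝ) (hp : ∀ l, 0 < p l)
    (A : Fin (N + 1) ⊕ Bool → Matrix (Fin d) (Fin d) ℝ) (a : Fin (N + 1) ⊕ Bool → ℝ)
    (ha : ∀ l, 0 < a l) (hg : ∀ l, (g l : Matrix (Fin d) (Fin d) ℝ) = a l • A l)
    (δ : Fin (N + 1) → ℝ) (hδ : ∀ j, |δ j| ≤ 1)
    (hA : ∀ j, A (.inl j) = dia o e (δ j) + nil o e (2 * (j : ℕ) + 2) (4 * N + 5))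
    (h6 : ∀ b, 6 < A (.inr b) o o)
    (hdom : ∀ b k l, ¬ (k = o ∧ l = o) → 2 * d * (2 * N + 3 : ℝ) * |A (.inr b) k l| < A (.inr b) o o)
    (t : ℝ) (ht : t ≤ -2) (α : ℝ) (hα : ∀ l, p l * a l ^ t ≤ α) (hα0 : 0 < α) (n : ℕ) :
    mom p g t n ≤ α ^ n := by
  set U : Fin (N + 1) → (Fin d → ℝ) → ℝ := fun j v => v e - (2 * (j : ℕ) + 2) * v o with hU
  set In : Option (Fin (N + 1)) → (Fin d → ℝ) → Prop := fun st v =>
    match st with
    | none => v o ≠ 0 ∧ ∀ k, v k ^ 2 ≤ v o ^ 2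
    | some j => 0 < U j v * v o ∧ U j v ^ 2 ≤ U j v * v o ∧ ∀ k, k ≠ e → v k ^ 2 ≤ v o ^ 2
    with hIn
  set Ψ : Option (Fin (N + 1)) → (Fin d → ℝ) → ℝ := fun st v =>
    match st with
    | none => 1 / v o ^ 2
    | some j => 1 / (U j v * v o) with hΨ
  set next : Fin (N + 1) ⊕ Bool → Option (Fin (N + 1)) := fun l =>
    match l with
    | .inl j => some j
    | .inr _ => none with hnext
  have hN : (0 : ℝ) ≤ N := Nat.cast_nonneg N
  have h1 : ∀ st v, In st v → v o ≠ 0 ∧ 1 / (v o) ^ 2 ≤ Ψ st v := by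
    rintro (_ | j) v hv
    · exact ⟨hv.1, le_rfl⟩
    · exact ⟨right_ne_zero_of_mul hv.1.ne',
        one_div_le_one_div_of_le hv.1 (mul_le_sq_of _ _ hv.1 hv.2.1).1⟩
  have hother : ∀ st v, In st v → ∀ k, k ≠ e → v k ^ 2 ≤ v o ^ 2 := by
    rintro (_ | j) v hv k hk
    · exact hv.2 k
    · exact hv.2.2 k hk
  have hAo : ∀ j v, (A (.inl j) *ᵥ v) o = v o + (4 * N + 5) * U j v := by
    intro j v; rw [hA, par_mulVec_o hoe]
  have hAU : ∀ j v, U j (A (.inl j) *ᵥ v) = U j v := by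
    intro j v
    simp only [hU]
    rw [hA, par_mulVec_o hoe, par_mulVec_e hoe]; ring
  have hfar : ∀ st v, In st v → ∀ j, st ≠ some j → v o ^ 2 ≤ U j v ^ 2 := by
    rintro (_ | i) v hv j hj
    · have := far (v e) (v o) (-(2 * (j : ℕ) + 2)) (hv.2 e) (by
        have : (0 : ℝ) ≤ (j : ℕ) := Nat.cast_nonneg _
        nlinarith)
      simp only [hU]; convert this using 2; ring
    · have hij : ((i : ℕ) : ℤ) - (j : ℕ) ≠ 0 := by
        intro h; apply hj; congr 1; ext; omega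
      have h2 : (1 : ℤ) ≤ (((i : ℕ) : ℤ) - (j : ℕ)) ^ 2 := by
        have := sq_pos_of_ne_zero hij; omega
      have h3 : (1 : ℝ) ≤ (((i : ℕ) : ℝ) - (j : ℕ)) ^ 2 := by exact_mod_cast h2
      have := far (U i v) (v o) (2 * (((i : ℕ) : ℝ) - (j : ℕ))) (mul_le_sq_of _ _ hv.1 hv.2.1).2
        (by nlinarith)
      simp only [hU] at this ⊢; convert this using 2; ring
  have hpar : ∀ st v, In st v → ∀ j, 0 < U j v * (v o + (4 * N + 5) * U j v) ∧
      U j v ^ 2 ≤ U j v * (v o + (4 * N + 5) * U j v) ∧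
      v o ^ 2 ≤ (v o + (4 * N + 5) * U j v) ^ 2 ∧
      1 / (U j v * (v o + (4 * N + 5) * U j v)) ≤
        (if st = some j then Ψ st v - 1 / (2 * v o ^ 2) else 0) + 1 / ((4 * N + 4) * v o ^ 2) := by
    intro st v hv j
    by_cases hst : st = some j
    · subst hst
      obtain ⟨q1, q2, q3, q4⟩ := parA (U j v) (v o) (4 * N + 5) (by linarith) hv.1 hv.2.1
      refine ⟨q1, q2, q3, ?_⟩
      rw [if_pos rfl]
      have : 0 ≤ 1 / ((4 * N + 4) * v o ^ 2) := by positivity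
      simp only [hΨ]; linarith
    · obtain ⟨q1, q2, q3, q4⟩ := parB (U j v) (v o) (4 * N + 5) (by linarith) (h1 st v hv).1
        (hfar st v hv j hst)
      refine ⟨q1, q2, q3, ?_⟩
      rw [if_neg hst, zero_add]
      convert q4 using 3; ring
  have hbound : ∀ st v, In st v → ∀ k, |v k| ≤ (2 * N + 3 : ℝ) * |v o| := by
    intro st v hv k
    have hy := abs_nonneg (v o)
    by_cases hk : k = e
    · subst hk
      rcases st with _ | j
      · have := sq_le_sq.1 (hv.2 k); nlinarith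
      · have h2 := sq_le_sq.1 (mul_le_sq_of _ _ hv.1 hv.2.1).2
        have h3 : v k = U j v + (2 * (j : ℕ) + 2) * v o := by simp [hU]
        have h4 : ((j : ℕ) : ℝ) ≤ N := by exact_mod_cast Nat.lt_succ_iff.1 j.2
        have h5 : (0 : ℝ) ≤ (j : ℕ) := Nat.cast_nonneg _
        have h6 := abs_add_le (U j v) ((2 * (j : ℕ) + 2) * v o)
        rw [← h3, abs_mul, abs_of_nonneg (by positivity : (0 : ℝ) ≤ 2 * (j : ℕ) + 2)] at h6
        nlinarith
    · have := sq_le_sq.1 (hother st v hv k hk); nlinarith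
  have hlox : ∀ st v, In st v → ∀ b, 9 * v o ^ 2 ≤ ((A (.inr b) *ᵥ v) o) ^ 2 ∧
      ∀ k, ((A (.inr b) *ᵥ v) k) ^ 2 ≤ ((A (.inr b) *ᵥ v) o) ^ 2 := by
    intro st v hv b
    obtain ⟨q1, q2⟩ := dominated o (A (.inr b)) _ (h6 b) (hdom b) v (hbound st v hv)
    refine ⟨?_, fun k => sq_le_sq.2 (q2 k)⟩
    have : (3 * v o) ^ 2 ≤ ((A (.inr b) *ᵥ v) o) ^ 2 := by
      apply sq_le_sq.2; rw [abs_mul]; simpa using q1
    linarith
  have h2 : ∀ st v, In st v → ∀ l, In (next l) (A l *ᵥ v) ∧ (v o) ^ 2 ≤ ((A l *ᵥ v) o) ^ 2 := by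
    rintro st v hv (j | b)
    · obtain ⟨q1, q2, q3, -⟩ := hpar st v hv j
      refine ⟨⟨by rwa [hAU, hAo], by rwa [hAU, hAo], fun k hk => ?_⟩, by rwa [hAo]⟩
      by_cases hko : k = o
      · rw [hko]
      · rw [hAo, hA, par_mulVec_other _ _ _ _ _ hko hk]
        have q5 : δ j ^ 2 ≤ 1 := by
          have := hδ j; rw [← sq_abs]; nlinarith [abs_nonneg (δ j)]
        have q6 := hother st v hv k hk
        nlinarith [sq_nonneg (v k)]
    · obtain ⟨q1, q2⟩ := hlox st v hv b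
      have hy : 0 < v o ^ 2 := by have := (h1 st v hv).1; positivity
      refine ⟨⟨?_, q2⟩, by linarith⟩
      intro h0; rw [h0] at q1; linarith
  have h3 : ∀ st v, In st v → ∑ l, Ψ (next l) (A l *ᵥ v) ≤ Ψ st v := by
    intro st v hv
    have hy : 0 < v o ^ 2 := by have := (h1 st v hv).1; positivity
    rw [Fintype.sum_sum_type]
    have q1 : ∑ j, Ψ (next (.inl j)) (A (.inl j) *ᵥ v) ≤ ∑ j : Fin (N + 1),
        ((if st = some j then Ψ st v - 1 / (2 * v o ^ 2) else 0) +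
          1 / ((4 * N + 4) * v o ^ 2)) := by
      refine Finset.sum_le_sum fun j _ => ?_
      have := (hpar st v hv j).2.2.2
      simp only [hnext, hΨ] at this ⊢
      rwa [hAU, hAo]
    have q2 : ∑ b, Ψ (next (.inr b)) (A (.inr b) *ᵥ v) ≤ ∑ b : Bool, 1 / (9 * v o ^ 2) :=
      Finset.sum_le_sum fun b _ => one_div_le_one_div_of_le (by positivity) (hlox st v hv b).1
    have q3 : ∑ j : Fin (N + 1), 1 / ((4 * N + 4) * v o ^ 2) = 1 / 4 * (1 / v o ^ 2) := by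
      simp only [Finset.sum_const, Finset.card_univ, Fintype.card_fin, nsmul_eq_mul]
      push_cast; field_simp
    have q4 : ∑ b : Bool, 1 / (9 * v o ^ 2) = 2 / 9 * (1 / v o ^ 2) := by
      simp only [Finset.sum_const, Finset.card_univ, Fintype.card_bool, nsmul_eq_mul]
      push_cast; field_simp
    have q5 : 1 / (2 * v o ^ 2) = 1 / 2 * (1 / v o ^ 2) := by field_simp
    have q6 : 0 < 1 / v o ^ 2 := by positivity
    rw [Finset.sum_add_distrib, q3] at q1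
    rw [q4] at q2
    rcases st with _ | i
    · simp only [reduceCtorEq, if_false, Finset.sum_const_zero] at q1
      have : Ψ none v = 1 / v o ^ 2 := rfl
      linarith
    · simp only [Option.some.injEq, Finset.sum_ite_eq, Finset.mem_univ, if_true] at q1
      linarith
  have hv0 : In none (Pi.single o 1) := by
    refine ⟨by simp, fun k => ?_⟩
    by_cases hk : k = o
    · rw [hk]
    · simp [hk]
  have := frozen_upper o p g hp A a ha hg In Ψ next h1 h2 h3 t ht α hα hα0 n 1 1 none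
    (Pi.single o 1) one_pos hv0 (by rw [Units.val_one, one_mulVec, one_smul])
  simpa [hΨ, mom] using this

end Pool.Agent.MP_2489e7_pr.H60
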